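import Pool.Agent.H70.RD.HeatAux

/-!
# MP_609556_an, module BR1: a classical solution satisfies Duhamel's formula between positive times
-/

open MeasureTheory Set Filter Topology Metric
open Pool.Agent.H29.TF
open Pool.Agent.H91.RD

namespace Pool.Agent.H70.RD.BR1

variable {N : ℕ}

/-- the Laplacian of the heat kernel, explicit form -/
noncomputable def Lk (N : ℕ) (τ : ℝ) (z : E N) : ℝ :=
  hk τ z * (‖z‖ ^ 2 / (4 * τ ^ 2) - N / (2 * τ))

theorem contOn_Lk : ContinuousOn (fun p : ℝ × E N => Lk N p.1 p.2) (Ioi 0 ×ˢ univ) := by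
  unfold Lk
  apply contOn_hk.mul
  apply ContinuousOn.sub
  · apply ContinuousOn.div (by fun_prop) (by fun_prop)
    rintro ⟨t, x⟩ ⟨ht, -⟩
    have h0 : (0 : ℝ) < t := ht
    have : (0 : ℝ) < 4 * t ^ 2 := by positivity
    exact this.ne'
  · apply ContinuousOn.div (by fun_prop) (by fun_prop)
    rintro ⟨t, x⟩ ⟨ht, -⟩
    have h0 : (0 : ℝ) < t := ht
    have : (0 : ℝ) < 2 * t := by positivity
    exact this.ne'

/-- the integrand -/
noncomputable def G (f : ℝ → ℝ) (u : ℝ → E N → ℝ) (t : ℝ) (x : E N) (r : ℝ) (y : E N) : ℝ :=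
  hk (t - r) (x - y) * (Laplacian.laplacian (u r) y + f (u r y)) - Lk N (t - r) (x - y) * u r y

theorem maps_sub {t : ℝ} (x : E N) {s : Set (ℝ × E N)} (hs : s ⊆ Ioo 0 t ×ˢ univ) :
    MapsTo (fun p : ℝ × E N => (t - p.1, x - p.2)) s (Ioi 0 ×ˢ univ) := by
  intro p hp
  have := (hs hp).1.2
  refine ⟨?_, mem_univ _⟩
  show 0 < t - p.1
  linarith

theorem contOn_hks (t : ℝ) (x : E N) :
    ContinuousOn (fun p : ℝ × E N => hk (t - p.1) (x - p.2)) (Ioo 0 t ×ˢ univ) :=
  contOn_hk.comp (f := fun p : ℝ × E N => (t - p.1, x - p.2)) (by fun_prop)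
    (maps_sub x (subset_refl _))

theorem contOn_Lks (t : ℝ) (x : E N) :
    ContinuousOn (fun p : ℝ × E N => Lk N (t - p.1) (x - p.2)) (Ioo 0 t ×ˢ univ) :=
  contOn_Lk.comp (f := fun p : ℝ × E N => (t - p.1, x - p.2)) (by fun_prop)
    (maps_sub x (subset_refl _))

theorem contOn_G {f : ℝ → ℝ} (hf : Continuous f) {U : Set (E N)} {u : ℝ → E N → ℝ}
    (h : IsSol f U u) (t : ℝ) (x : E N) :
    ContinuousOn (fun p : ℝ × E N => G f u t x p.1 p.2) (Ioo 0 t ×ˢ univ) := by
  have hsub : Ioo 0 t ×ˢ (univ : Set (E N)) ⊆ Ioi 0 ×ˢ univ := prod_mono_left fun r hr => hr.1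
  unfold G
  exact ((contOn_hks t x).mul (((contOn_lap h).mono hsub).add
    (hf.comp_continuousOn (h.cont.mono hsub)))).sub ((contOn_Lks t x).mul (h.cont.mono hsub))

/-- derivative in time -/
theorem hasDeriv (hHKE : T_HKE) {f : ℝ → ℝ} {U : Set (E N)} {u : ℝ → E N → ℝ}
    (h : IsSol f U u) {t r : ℝ} (hr0 : 0 < r) (hrt : r < t) (x y : E N) :
    HasDerivAt (fun r => hk (t - r) (x - y) * u r y) (G f u t x r y) r := by
  obtain ⟨-, h2, h3⟩ := hHKE N (t - r) (by linarith) (x - y)
  have h4 : HasDerivAt (fun r => hk (t - r) (x - y)) (-(Lk N (t - r) (x - y))) r := by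
    rw [h3] at h2
    have h5 := h2.comp_const_sub t r
    exact h5
  have h6 : HasDerivAt (fun r => u r y) (Laplacian.laplacian (u r) y + f (u r y)) r := by
    rw [← h.eqn r hr0 y]
    exact (h.dt r hr0 y).hasDerivAt
  have h7 := h4.mul h6
  refine h7.congr_deriv ?_
  show _ = hk (t - r) (x - y) * (Laplacian.laplacian (u r) y + f (u r y)) -
    Lk N (t - r) (x - y) * u r y
  ring

/-- [A] integrated form with a cut-off -/
theorem stepA (hHKE : T_HKE) {f : ℝ → ℝ} (hf : Continuous f) {U : Set (E N)} {u : ℝ → E N → ℝ}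
    (h : IsSol f U u) {s t' t : ℝ} (hs : 0 < s) (hst : s < t') (htt : t' < t) (x : E N)
    {χ : E N → ℝ} (hχ : Continuous χ) (hc : HasCompactSupport χ) :
    (∫ y, χ y * (hk (t - t') (x - y) * u t' y)) - ∫ y, χ y * (hk (t - s) (x - y) * u s y) =
      ∫ r in s..t', ∫ y, χ y * G f u t x r y := by
  have hsub : Icc s t' ×ˢ (univ : Set (E N)) ⊆ Ioo 0 t ×ˢ univ :=
    prod_mono_left fun r hr => ⟨by linarith [hr.1], by linarith [hr.2]⟩
  have hGc : ContinuousOn (fun p : ℝ × E N => χ p.2 * G f u t x p.1 p.2) (Icc s t' ×ˢ univ) :=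
    (hχ.comp continuous_snd).continuousOn.mul ((contOn_G hf h t x).mono hsub)
  have hint := integrable_strip (S := tsupport χ) hc hGc (by
    intro r _ y hy
    simp only
    rw [image_eq_zero_of_notMem_tsupport hy, zero_mul])
  rw [intervalIntegral_integral_swap (by rw [uIoc_of_le hst.le]; exact hint)]
  have hcu : ∀ r, r ∈ Ioo 0 t → Continuous (fun y => hk (t - r) (x - y) * u r y) := by
    intro r hr
    have h1 : Continuous (u r) := (h.c2 r hr.1).continuous
    fun_prop
  have hI : ∀ r, r ∈ Ioo 0 t → Integrable (fun y => χ y * (hk (t - r) (x - y) * u r y)) := by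
    intro r hr
    apply Continuous.integrable_of_hasCompactSupport
    · exact hχ.mul (hcu r hr)
    · exact hc.mul_right
  rw [← integral_sub (hI t' ⟨by linarith, htt⟩) (hI s ⟨hs, by linarith⟩)]
  congr 1
  ext y
  rw [intervalIntegral.integral_const_mul]
  rw [intervalIntegral.integral_eq_sub_of_hasDerivAt (f := fun r => hk (t - r) (x - y) * u r y)]
  · ring
  · intro r hr
    rw [uIcc_of_le hst.le] at hr
    exact hasDeriv hHKE h (by linarith [hr.1]) (by linarith [hr.2]) x y
  · apply ContinuousOn.intervalIntegrable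
    rw [uIcc_of_le hst.le]
    exact ((contOn_G hf h t x).mono hsub).comp (f := fun r : ℝ => (r, y)) (by fun_prop)
      (fun r hr => ⟨hr, mem_univ _⟩)

/-- the kernel as a function of `y` -/
theorem gprop (hHKE : T_HKE) {τ : ℝ} (hτ : 0 < τ) (x : E N) :
    ContDiff ℝ 2 (fun y : E N => hk τ (x - y)) ∧
      (∀ y, Laplacian.laplacian (fun y : E N => hk τ (x - y)) y = Lk N τ (x - y)) ∧
      (∀ y, ‖fderiv ℝ (fun y : E N => hk τ (x - y)) y‖ = hk τ (x - y) * ‖x - y‖ / (2 * τ)) := by
  have e : (fun y : E N => hk τ (x - y)) = fun y => hk τ (y - x) := by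
    ext y; exact hk_sub_comm τ x y
  have hsm : ContDiff ℝ 2 (fun z : E N => hk τ z) := (hHKE N τ hτ 0).1
  refine ⟨?_, ?_, ?_⟩
  · rw [e]
    exact hsm.comp (contDiff_id.sub contDiff_const)
  · intro y
    rw [e, lap_comp_sub (fun z => hk τ z) x y, (hHKE N τ hτ (y - x)).2.2]
    unfold Lk
    rw [hk_sub_comm, norm_sub_rev]
  · intro y
    rw [e]
    have h1 : HasFDerivAt (fun y : E N => hk τ (y - x))
        ((-(1 / (2 * τ)) * hk τ (y - x)) • (innerSL ℝ (y - x) : E N →L[ℝ] ℝ)) y := by
      have := (hasFDerivAt_hk hτ (y - x)).comp y (hasFDerivAt_sub_const (𝕜 := ℝ) x)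
      exact this
    rw [h1.fderiv, norm_smul, innerSL_apply_norm, norm_mul, norm_neg,
      Real.norm_of_nonneg (by positivity), Real.norm_of_nonneg (hk_nonneg hτ.le _),
      hk_sub_comm, norm_sub_rev]
    ring

/-- [B] integration by parts at a fixed time, and the error estimate -/
theorem stepB (hHKE : T_HKE) (hIBP : T_IBP) {f : ℝ → ℝ} (hf : Continuous f) {U : Set (E N)}
    {u : ℝ → E N → ℝ} (h : IsSol f U u) {M : ℝ} (hM : ∀ t > 0, ∀ x, |u t x| ≤ M) {t r : ℝ}
    (hr : 0 < r) (hrt : r < t) (x : E N) {χ : E N → ℝ} (hχ : ContDiff ℝ 2 χ)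
    (hc : HasCompactSupport χ) {B A1 : ℝ} (hB : 0 ≤ B)
    (hcut : ∀ g : E N → ℝ, ContDiff ℝ 2 g → ∀ y,
      |Laplacian.laplacian (fun z => χ z * g z) y - χ y * Laplacian.laplacian g y| ≤
        B * (‖fderiv ℝ g y‖ + |g y|))
    (hA1 : Integrable (fun z : E N => hk (t - r) z * ‖z‖))
    (hA2 : ∫ z : E N, hk (t - r) z * ‖z‖ ≤ A1 * √(t - r)) :
    |(∫ y, χ y * G f u t x r y) - ∫ y, χ y * (hk (t - r) (x - y) * f (u r y))| ≤
      B * M * (A1 * √(t - r) / (2 * (t - r)) + 1) := by
  have hτ : 0 < t - r := by linarith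
  obtain ⟨hg2, hgL, hgd⟩ := gprop hHKE hτ x
  set g : E N → ℝ := fun y => hk (t - r) (x - y) with hg
  have hM0 : 0 ≤ M := (abs_nonneg _).trans (hM r hr 0)
  have hu2 := h.c2 r hr
  have hcg : HasCompactSupport (fun y => χ y * g y) := hc.mul_right
  have hchg : ContDiff ℝ 2 (fun y => χ y * g y) := hχ.mul hg2
  have hibp := hIBP N (fun y => χ y * g y) (u r) hchg hcg hu2
  have hcontL : ∀ {v : E N → ℝ}, ContDiff ℝ 2 v → Continuous (Laplacian.laplacian v) := by
    intro v hv
    rw [InnerProductSpace.laplacian_eq_iteratedFDeriv_stdOrthonormalBasis]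
    apply continuous_finsetSum
    intro i _
    exact (ContinuousMultilinearMap.apply ℝ (fun _ : Fin 2 => E N) ℝ
      ![(stdOrthonormalBasis ℝ (E N)) i, (stdOrthonormalBasis ℝ (E N)) i]).continuous.comp
      (hv.continuous_iteratedFDeriv (by norm_num))
  have hcu : Continuous (u r) := hu2.continuous
  have hcg1 : Continuous g := hg2.continuous
  have hcχ : Continuous χ := hχ.continuous
  have hcLu : Continuous (Laplacian.laplacian (u r)) := hcontL hu2
  have hcLg : Continuous (Laplacian.laplacian g) := hcontL hg2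
  have hcLχ : Continuous (Laplacian.laplacian (fun y => χ y * g y)) := hcontL hchg
  have hLc : HasCompactSupport (Laplacian.laplacian (fun y => χ y * g y)) := by
    apply HasCompactSupport.intro (K := tsupport (fun y => χ y * g y)) hcg
    intro y hy
    have h1 : (fun y => χ y * g y) =ᶠ[𝓝 y] fun _ => 0 := by
      have := (isClosed_tsupport (fun y => χ y * g y)).isOpen_compl.mem_nhds hy
      filter_upwards [this] with z hz
      exact image_eq_zero_of_notMem_tsupport (f := fun y => χ y * g y) hz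
    have h2 := InnerProductSpace.laplacian_congr_nhds h1
    have h3 := h2.self_of_nhds
    rw [h3, InnerProductSpace.laplacian_const]
    rfl
  have i1 : Integrable (fun y => (χ y * g y) * Laplacian.laplacian (u r) y) :=
    (by fun_prop : Continuous fun y => (χ y * g y) * Laplacian.laplacian (u r) y).integrable_of_hasCompactSupport
      hcg.mul_right
  have i2 : Integrable (fun y => χ y * (g y * f (u r y))) :=
    (by fun_prop : Continuous fun y => χ y * (g y * f (u r y))).integrable_of_hasCompactSupport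
      hc.mul_right
  have i3 : Integrable (fun y => χ y * (Laplacian.laplacian g y * u r y)) :=
    (by fun_prop : Continuous fun y => χ y * (Laplacian.laplacian g y * u r y)).integrable_of_hasCompactSupport
      hc.mul_right
  have i4 : Integrable (fun y => Laplacian.laplacian (fun y => χ y * g y) y * u r y) :=
    (by fun_prop : Continuous fun y => Laplacian.laplacian (fun y => χ y * g y) y * u r y).integrable_of_hasCompactSupport
      hLc.mul_right
  have e1 : (∫ y, χ y * G f u t x r y) - ∫ y, χ y * (hk (t - r) (x - y) * f (u r y)) =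
      ∫ y, (Laplacian.laplacian (fun y => χ y * g y) y - χ y * Laplacian.laplacian g y) * u r y := by
    have e2 : (fun y => χ y * G f u t x r y) = fun y =>
        (χ y * g y) * Laplacian.laplacian (u r) y + (χ y * (g y * f (u r y)) -
          χ y * (Laplacian.laplacian g y * u r y)) := by
      ext y
      unfold G
      rw [hgL y]
      simp only [hg]
      ring
    have e3 : (fun y => (Laplacian.laplacian (fun y => χ y * g y) y -
        χ y * Laplacian.laplacian g y) * u r y) = fun y =>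
        Laplacian.laplacian (fun y => χ y * g y) y * u r y -
          χ y * (Laplacian.laplacian g y * u r y) := by
      ext y; ring
    have e4 := integral_add i1 (i2.sub i3)
    simp only [Pi.sub_apply] at e4
    rw [e2, e3, e4, integral_sub i2 i3, integral_sub i4 i3, hibp]
    simp only [hg]
    ring
  rw [e1]
  have j1 : Integrable (fun y : E N => hk (t - r) (x - y) * ‖x - y‖) :=
    hA1.comp_sub_left x
  have j2 : ∫ y : E N, hk (t - r) (x - y) * ‖x - y‖ ≤ A1 * √(t - r) := by
    rw [integral_sub_left_eq_self (fun z : E N => hk (t - r) z * ‖z‖) volume x]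
    exact hA2
  have j3 : Integrable (fun y : E N => B * M * (hk (t - r) (x - y) * ‖x - y‖ / (2 * (t - r)) +
      hk (t - r) (x - y))) := ((j1.div_const _).add (integrable_hk_sub hτ x)).const_mul _
  calc |∫ y, (Laplacian.laplacian (fun y => χ y * g y) y - χ y * Laplacian.laplacian g y) * u r y|
      ≤ ∫ y, B * M * (hk (t - r) (x - y) * ‖x - y‖ / (2 * (t - r)) + hk (t - r) (x - y)) := by
        rw [← Real.norm_eq_abs]
        apply norm_integral_le_of_norm_le j3
        refine Filter.Eventually.of_forall fun y => ?_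
        rw [norm_mul, Real.norm_eq_abs, Real.norm_eq_abs]
        have k1 := hcut g hg2 y
        rw [hgd y] at k1
        have k2 : |g y| = hk (t - r) (x - y) := abs_of_nonneg (hk_nonneg hτ.le _)
        rw [k2] at k1
        have k3 := hM r hr y
        have k4 : 0 ≤ hk (t - r) (x - y) * ‖x - y‖ / (2 * (t - r)) + hk (t - r) (x - y) := by
          have := hk_nonneg hτ.le (x - y)
          positivity
        calc _ ≤ (B * (hk (t - r) (x - y) * ‖x - y‖ / (2 * (t - r)) + hk (t - r) (x - y))) * M :=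
              mul_le_mul k1 k3 (abs_nonneg _) (mul_nonneg hB k4)
          _ = _ := by ring
    _ = B * M * ((∫ y, hk (t - r) (x - y) * ‖x - y‖) / (2 * (t - r)) + 1) := by
        rw [integral_const_mul, integral_add (j1.div_const _) (integrable_hk_sub hτ x),
          integral_div, integral_hk_sub hτ]
    _ ≤ _ := by
        apply mul_le_mul_of_nonneg_left _ (mul_nonneg hB hM0)
        gcongr

/-- removing the cut-off -/
theorem cut_lim {χ : ℕ → E N → ℝ} (hc : ∀ n, Continuous (χ n)) (h01 : ∀ n y, 0 ≤ χ n y ∧ χ n y ≤ 1)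
    (h1 : ∀ n : ℕ, ∀ y ∈ closedBall (0 : E N) ((n : ℝ) + 1), χ n y = 1) {h : E N → ℝ}
    (hh : Integrable h) : Tendsto (fun n => ∫ y, χ n y * h y) atTop (𝓝 (∫ y, h y)) := by
  apply tendsto_integral_of_dominated_convergence (fun y => ‖h y‖)
  · intro n
    exact (hc n).aestronglyMeasurable.mul hh.aestronglyMeasurable
  · exact hh.norm
  · intro n
    refine Filter.Eventually.of_forall fun y => ?_
    rw [norm_mul, Real.norm_of_nonneg (h01 n y).1]
    exact mul_le_of_le_one_left (norm_nonneg _) (h01 n y).2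
  · refine Filter.Eventually.of_forall fun y => ?_
    apply tendsto_const_nhds.congr'
    obtain ⟨n0, hn0⟩ := exists_nat_ge ‖y‖
    filter_upwards [eventually_ge_atTop n0] with n hn
    rw [h1 n y, one_mul]
    rw [mem_closedBall_zero_iff]
    have : (n0 : ℝ) ≤ n := by exact_mod_cast hn
    linarith

/-- the integrand of the Duhamel term is jointly continuous -/
theorem contOn_F {f : ℝ → ℝ} (hf : Continuous f) {U : Set (E N)} {u : ℝ → E N → ℝ}
    (h : IsSol f U u) (t : ℝ) (x : E N) :
    ContinuousOn (fun p : ℝ × E N => hk (t - p.1) (x - p.2) * f (u p.1 p.2)) (Ioo 0 t ×ˢ univ) := by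
  have hsub : Ioo 0 t ×ˢ (univ : Set (E N)) ⊆ Ioi 0 ×ˢ univ := prod_mono_left fun r hr => hr.1
  exact (contOn_hks t x).mul (hf.comp_continuousOn (h.cont.mono hsub))

theorem sol_cont {f : ℝ → ℝ} {U : Set (E N)} {u : ℝ → E N → ℝ} (h : IsSol f U u) {r : ℝ}
    (hr : 0 < r) : Continuous (u r) := (h.c2 r hr).continuous

/-- measurability in time of the Duhamel integrand -/
theorem aesm_P {f : ℝ → ℝ} (hf : Continuous f) {U : Set (E N)} {u : ℝ → E N → ℝ}
    (h : IsSol f U u) (t : ℝ) (x : E N) :
    AEStronglyMeasurable (fun r => P (t - r) (fun y => f (u r y)) x) (volume.restrict (Ioo 0 t)) := by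
  have h1 := aesm_strip (contOn_F hf h t x)
  exact h1.integral_prod_right'

theorem abs_F_le {f : ℝ → ℝ} {K : ℝ} (hL : Lip f K) {u : ℝ → E N → ℝ} {M : ℝ}
    (hM : ∀ t > 0, ∀ x, |u t x| ≤ M) {r : ℝ} (hr : 0 < r) (y : E N) : |f (u r y)| ≤ K * M :=
  (hL.abs_le _).trans (mul_le_mul_of_nonneg_left (hM r hr y) hL.K0.le)

/-- the Duhamel integrand is interval integrable -/
theorem intble_P {f : ℝ → ℝ} {K : ℝ} (hL : Lip f K) {U : Set (E N)} {u : ℝ → E N → ℝ}
    (h : IsSol f U u) {M : ℝ} (hM : ∀ t > 0, ∀ x, |u t x| ≤ M) {t : ℝ} (ht : 0 ≤ t) (x : E N) :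
    IntervalIntegrable (fun r => P (t - r) (fun y => f (u r y)) x) volume 0 t := by
  rw [intervalIntegrable_iff_integrableOn_Ioo_of_le ht]
  apply Integrable.mono' (g := fun _ => K * M)
  · exact integrableOn_const (by rw [Real.volume_Ioo]; exact ENNReal.ofReal_ne_top)
  · exact aesm_P hL.continuous h t x
  · rw [ae_restrict_iff' measurableSet_Ioo]
    refine Filter.Eventually.of_forall fun r hr => ?_
    rw [Real.norm_eq_abs]
    exact abs_P_le (by linarith [hr.2]) (fun y => abs_F_le hL hM hr.1 y) x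

/-- [C] Duhamel's formula up to an intermediate time -/
theorem stepC (hHKE : T_HKE) (hIBP : T_IBP) (hCUT : T_CUT) (hGRAD : T_GRAD) {f : ℝ → ℝ} {K : ℝ}
    (hL : Lip f K) {U : Set (E N)} {u : ℝ → E N → ℝ}
    (h : IsSol f U u) {M : ℝ} (hM : ∀ t > 0, ∀ x, |u t x| ≤ M) {s t' t : ℝ}
    (hs : 0 < s) (hst : s < t') (htt : t' < t) (x : E N) :
    P (t - t') (u t') x - P (t - s) (u s) x = ∫ r in s..t', P (t - r) (fun y => f (u r y)) x := by
  obtain ⟨A, hA, hcut⟩ := hCUT N
  obtain ⟨A1, hA1, -, hgrad⟩ := hGRAD N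
  choose χ' hχ' using hcut
  have hR : ∀ n : ℕ, (1 : ℝ) ≤ (n : ℝ) + 1 := fun n => by
    have : (0 : ℝ) ≤ n := Nat.cast_nonneg n
    linarith
  set χ : ℕ → E N → ℝ := fun n => χ' ((n : ℝ) + 1) (hR n) with hχd
  have hχ2 : ∀ n, ContDiff ℝ 2 (χ n) := fun n => (hχ' _ (hR n)).1
  have hχc : ∀ n, HasCompactSupport (χ n) := fun n => (hχ' _ (hR n)).2.1
  have hχ01 : ∀ n y, 0 ≤ χ n y ∧ χ n y ≤ 1 := fun n => (hχ' _ (hR n)).2.2.1
  have hχ1 : ∀ n : ℕ, ∀ y ∈ closedBall (0 : E N) ((n : ℝ) + 1), χ n y = 1 :=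
    fun n => (hχ' _ (hR n)).2.2.2.1
  have hχ3 : ∀ n : ℕ, ∀ g : E N → ℝ, ContDiff ℝ 2 g → ∀ y,
      |Laplacian.laplacian (fun z => χ n z * g z) y - χ n y * Laplacian.laplacian g y| ≤
        A / ((n : ℝ) + 1) * (‖fderiv ℝ g y‖ + |g y|) := fun n => (hχ' _ (hR n)).2.2.2.2
  have hf := hL.continuous
  have hM0 : 0 ≤ M := (abs_nonneg _).trans (hM s hs 0)
  have hKM : 0 ≤ K * M := mul_nonneg hL.K0.le hM0
  have hτ0 : 0 < t - t' := by linarith
  have hsub : Icc s t' ×ˢ (univ : Set (E N)) ⊆ Ioo 0 t ×ˢ univ :=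
    prod_mono_left fun r hr => ⟨by linarith [hr.1], by linarith [hr.2]⟩
  -- the two sequences
  set a : ℕ → ℝ := fun n => (∫ y, χ n y * (hk (t - t') (x - y) * u t' y)) -
    ∫ y, χ n y * (hk (t - s) (x - y) * u s y) with ha
  set b : ℕ → ℝ := fun n => ∫ r in s..t', ∫ y, χ n y * (hk (t - r) (x - y) * f (u r y)) with hb
  have intF : ∀ r ∈ Ioo 0 t, Integrable (fun y => hk (t - r) (x - y) * f (u r y)) := by
    intro r hr
    exact integrable_hk_mul (by linarith [hr.2]) (hf.comp (sol_cont h hr.1)).aestronglyMeasurable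
      (fun y => abs_F_le hL hM hr.1 y) x
  have intu : ∀ r ∈ Ioo 0 t, Integrable (fun y => hk (t - r) (x - y) * u r y) := by
    intro r hr
    exact integrable_hk_mul (by linarith [hr.2]) (sol_cont h hr.1).aestronglyMeasurable
      (fun y => hM r hr.1 y) x
  have la : Tendsto a atTop (𝓝 (P (t - t') (u t') x - P (t - s) (u s) x)) := by
    apply Tendsto.sub
    · exact cut_lim (fun n => (hχ2 n).continuous) hχ01 hχ1 (intu t' ⟨by linarith, htt⟩)
    · exact cut_lim (fun n => (hχ2 n).continuous) hχ01 hχ1 (intu s ⟨hs, by linarith⟩)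
  have hFint : ∀ n, Integrable (fun p : ℝ × E N => χ n p.2 *
      (hk (t - p.1) (x - p.2) * f (u p.1 p.2)))
      ((volume.restrict (Ioc s t')).prod (volume : Measure (E N))) := by
    intro n
    apply integrable_strip (S := tsupport (χ n)) (hχc n)
    · exact ((hχ2 n).continuous.comp continuous_snd).continuousOn.mul
        ((contOn_F hf h t x).mono hsub)
    · intro r _ y hy
      simp only
      rw [image_eq_zero_of_notMem_tsupport hy, zero_mul]
  have hGint : ∀ n, Integrable (fun p : ℝ × E N => χ n p.2 * G f u t x p.1 p.2)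
      ((volume.restrict (Ioc s t')).prod (volume : Measure (E N))) := by
    intro n
    apply integrable_strip (S := tsupport (χ n)) (hχc n)
    · exact ((hχ2 n).continuous.comp continuous_snd).continuousOn.mul
        ((contOn_G hf h t x).mono hsub)
    · intro r _ y hy
      simp only
      rw [image_eq_zero_of_notMem_tsupport hy, zero_mul]
  have lb : Tendsto b atTop (𝓝 (∫ r in s..t', P (t - r) (fun y => f (u r y)) x)) := by
    apply intervalIntegral.tendsto_integral_filter_of_dominated_convergence (fun _ => K * M)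
    · refine Filter.Eventually.of_forall fun n => ?_
      rw [uIoc_of_le hst.le]
      exact (hFint n).aestronglyMeasurable.integral_prod_right'
    · refine Filter.Eventually.of_forall fun n => Filter.Eventually.of_forall fun r hr => ?_
      rw [uIoc_of_le hst.le] at hr
      have hr' : r ∈ Ioo 0 t := ⟨by linarith [hr.1], by linarith [hr.2]⟩
      have h1 : (∫ y, χ n y * (hk (t - r) (x - y) * f (u r y))) =
          P (t - r) (fun y => χ n y * f (u r y)) x := by
        unfold P
        congr 1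
        ext y
        ring
      rw [h1, Real.norm_eq_abs]
      apply abs_P_le (by linarith [hr'.2])
      intro y
      rw [abs_mul, abs_of_nonneg (hχ01 n y).1]
      exact (mul_le_of_le_one_left (abs_nonneg _) (hχ01 n y).2).trans (abs_F_le hL hM hr'.1 y)
    · exact intervalIntegrable_const
    · refine Filter.Eventually.of_forall fun r hr => ?_
      rw [uIoc_of_le hst.le] at hr
      have hr' : r ∈ Ioo 0 t := ⟨by linarith [hr.1], by linarith [hr.2]⟩
      exact cut_lim (fun n => (hχ2 n).continuous) hχ01 hχ1 (intF r hr')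
  -- the difference
  set B : ℝ := A * M * (A1 / (2 * √(t - t')) + 1) * (t' - s) with hB
  have hd : ∀ n : ℕ, ‖a n - b n‖ ≤ B / ((n : ℝ) + 1) := by
    intro n
    have e1 : a n = ∫ r in s..t', ∫ y, χ n y * G f u t x r y :=
      stepA hHKE hf h hs hst htt x (hχ2 n).continuous (hχc n)
    have i1 : IntervalIntegrable (fun r => ∫ y, χ n y * G f u t x r y) volume s t' := by
      rw [intervalIntegrable_iff_integrableOn_Ioc_of_le hst.le]
      exact (hGint n).integral_prod_left
    have i2 : IntervalIntegrable (fun r => ∫ y, χ n y * (hk (t - r) (x - y) * f (u r y)))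
        volume s t' := by
      rw [intervalIntegrable_iff_integrableOn_Ioc_of_le hst.le]
      exact (hFint n).integral_prod_left
    rw [e1, hb]
    simp only
    rw [← intervalIntegral.integral_sub i1 i2]
    have h2 : ∀ r ∈ uIoc s t', ‖(∫ y, χ n y * G f u t x r y) -
        ∫ y, χ n y * (hk (t - r) (x - y) * f (u r y))‖ ≤
        A / ((n : ℝ) + 1) * M * (A1 / (2 * √(t - t')) + 1) := by
      intro r hr
      rw [uIoc_of_le hst.le] at hr
      have hr' : r ∈ Ioo 0 t := ⟨by linarith [hr.1], by linarith [hr.2]⟩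
      have hτ : 0 < t - r := by linarith [hr'.2]
      obtain ⟨g1, g2⟩ := hgrad (t - r) hτ
      have h3 := stepB hHKE hIBP hf h hM hr'.1 hr'.2 x (hχ2 n) (hχc n)
        (B := A / ((n : ℝ) + 1)) (A1 := A1) (by positivity) (hχ3 n) g1 g2
      rw [Real.norm_eq_abs]
      refine h3.trans ?_
      apply mul_le_mul_of_nonneg_left _ (by positivity)
      have h4 : A1 * √(t - r) / (2 * (t - r)) = A1 / (2 * √(t - r)) := by
        have h5 : √(t - r) * √(t - r) = t - r := Real.mul_self_sqrt hτ.le
        have h6 : 0 < √(t - r) := Real.sqrt_pos.2 hτ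
        rw [div_eq_div_iff (by positivity) (by positivity)]
        calc A1 * √(t - r) * (2 * √(t - r)) = 2 * A1 * (√(t - r) * √(t - r)) := by ring
          _ = A1 * (2 * (t - r)) := by rw [h5]; ring
      rw [h4]
      have h7 : √(t - t') ≤ √(t - r) := Real.sqrt_le_sqrt (by linarith [hr.2])
      have h8 : 0 < √(t - t') := Real.sqrt_pos.2 hτ0
      gcongr
    have h3 := intervalIntegral.norm_integral_le_of_norm_le_const h2
    refine h3.trans (le_of_eq ?_)
    rw [abs_of_pos (by linarith), hB]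
    ring
  have ld : Tendsto (fun n => a n - b n) atTop (𝓝 0) := by
    apply squeeze_zero_norm hd
    exact tendsto_const_nhds.div_atTop (tendsto_natCast_atTop_atTop.atTop_add tendsto_const_nhds)
  have := tendsto_nhds_unique ld (la.sub lb)
  linarith

/-- [D] `P (t - t') (u t') x → u t x` -/
theorem stepD (hGRAD : T_GRAD) {f : ℝ → ℝ} {U : Set (E N)} {u : ℝ → E N → ℝ}
    (h : IsSol f U u) {M : ℝ} (hM : ∀ t > 0, ∀ x, |u t x| ≤ M) {t : ℝ} (ht : 0 < t) (x : E N) :
    Tendsto (fun t' => P (t - t') (u t') x) (𝓝[<] t) (𝓝 (u t x)) := by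
  obtain ⟨A1, hA1, -, hgrad⟩ := hGRAD N
  have hM0 : 0 ≤ M := (abs_nonneg _).trans (hM t ht 0)
  rw [Metric.tendsto_nhds]
  intro ε hε
  -- continuity at (t, x)
  have hc : ContinuousAt (fun p : ℝ × E N => u p.1 p.2) (t, x) :=
    h.cont.continuousAt ((isOpen_Ioi.prod isOpen_univ).mem_nhds ⟨ht, mem_univ _⟩)
  obtain ⟨δ, hδ, hδ2⟩ := Metric.continuousAt_iff.1 hc (ε / 2) (by positivity)
  -- first moment small
  have hsm : Tendsto (fun t' : ℝ => 2 * M / δ * (A1 * √(t - t'))) (𝓝[<] t) (𝓝 0) := by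
    have h1 : Continuous (fun t' : ℝ => 2 * M / δ * (A1 * √(t - t'))) := by fun_prop
    have h2 := (h1.tendsto t).mono_left (nhdsWithin_le_nhds (s := Iio t))
    simpa using h2
  have e1 : ∀ᶠ t' in 𝓝[<] t, 2 * M / δ * (A1 * √(t - t')) < ε / 2 :=
    hsm.eventually (gt_mem_nhds (by positivity))
  have e2 : ∀ᶠ t' in 𝓝[<] t, t' ∈ Ioo (max 0 (t - δ)) t :=
    Ioo_mem_nhdsLT (max_lt ht (by linarith))
  filter_upwards [e1, e2] with t' h1 h2
  have ht'0 : 0 < t' := (le_max_left _ _).trans_lt h2.1
  have ht'1 : t - δ < t' := (le_max_right _ _).trans_lt h2.1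
  have hτ : 0 < t - t' := by linarith [h2.2]
  obtain ⟨g1, g2⟩ := hgrad (t - t') hτ
  have hpt : ∀ y, |u t' y - u t x| ≤ ε / 2 + 2 * M / δ * ‖x - y‖ := by
    intro y
    by_cases hy : ‖x - y‖ < δ
    · have h3 : dist (t', y) (t, x) < δ := by
        rw [Prod.dist_eq, max_lt_iff]
        constructor
        · rw [Real.dist_eq, abs_of_nonpos (by linarith [h2.2])]; linarith
        · rw [dist_comm, dist_eq_norm]; exact hy
      have h4 := hδ2 h3
      rw [Real.dist_eq] at h4
      have h5 : 0 ≤ 2 * M / δ * ‖x - y‖ := by positivity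
      simp only at h4
      linarith
    · have h3 : |u t' y - u t x| ≤ 2 * M := by
        have := abs_sub (u t' y) (u t x)
        have h5 := hM t' ht'0 y
        have h6 := hM t ht x
        linarith
      have h4 : 2 * M ≤ 2 * M / δ * ‖x - y‖ := by
        rw [div_mul_eq_mul_div, le_div_iff₀ hδ]
        exact mul_le_mul_of_nonneg_left (not_lt.1 hy) (by positivity)
      linarith
  have i1 : Integrable (fun y => hk (t - t') (x - y) * u t' y) :=
    integrable_hk_mul hτ (sol_cont h ht'0).aestronglyMeasurable (fun y => hM t' ht'0 y) x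
  have i2 : Integrable (fun y : E N => hk (t - t') (x - y) * u t x) :=
    (integrable_hk_sub hτ x).mul_const _
  have j1 : Integrable (fun y : E N => hk (t - t') (x - y) * ‖x - y‖) := g1.comp_sub_left x
  have j2 : ∫ y : E N, hk (t - t') (x - y) * ‖x - y‖ ≤ A1 * √(t - t') := by
    rw [integral_sub_left_eq_self (fun z : E N => hk (t - t') z * ‖z‖) volume x]
    exact g2
  have e3 : P (t - t') (u t') x - u t x = ∫ y, hk (t - t') (x - y) * (u t' y - u t x) := by
    have h3 : P (t - t') (fun _ : E N => u t x) x = u t x := P_const hτ _ _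
    have h4 := P_sub (t := t - t') (f := u t') (g := fun _ => u t x) x i1 i2
    rw [h3] at h4
    rw [← h4]
    rfl
  rw [Real.dist_eq, e3]
  have j3 : Integrable (fun y : E N => ε / 2 * hk (t - t') (x - y) +
      2 * M / δ * (hk (t - t') (x - y) * ‖x - y‖)) :=
    ((integrable_hk_sub hτ x).const_mul _).add (j1.const_mul _)
  calc |∫ y, hk (t - t') (x - y) * (u t' y - u t x)| ≤
      ∫ y, (ε / 2 * hk (t - t') (x - y) + 2 * M / δ * (hk (t - t') (x - y) * ‖x - y‖)) := by
        rw [← Real.norm_eq_abs]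
        apply norm_integral_le_of_norm_le j3
        refine Filter.Eventually.of_forall fun y => ?_
        rw [norm_mul, Real.norm_of_nonneg (hk_nonneg hτ.le _), Real.norm_eq_abs]
        calc _ ≤ hk (t - t') (x - y) * (ε / 2 + 2 * M / δ * ‖x - y‖) :=
              mul_le_mul_of_nonneg_left (hpt y) (hk_nonneg hτ.le _)
          _ = _ := by ring
    _ = ε / 2 + 2 * M / δ * ∫ y, hk (t - t') (x - y) * ‖x - y‖ := by
        rw [integral_add ((integrable_hk_sub hτ x).const_mul _) (j1.const_mul _),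
          integral_const_mul, integral_const_mul, integral_hk_sub hτ, mul_one]
    _ ≤ ε / 2 + 2 * M / δ * (A1 * √(t - t')) := by gcongr
    _ < ε := by linarith

/-- [BR1] -/
theorem t_BR1 (hHKE : T_HKE) (hIBP : T_IBP) (hCUT : T_CUT) (hGRAD : T_GRAD) : T_BR1 := by
  intro N f K U u hL h s t hs hst x
  obtain ⟨M, hM⟩ := h.bdd
  have hf := hL.continuous
  have ht : 0 < t := hs.trans hst
  have h1 : Tendsto (fun t' => P (t - t') (u t') x - P (t - s) (u s) x) (𝓝[<] t)
      (𝓝 (u t x - P (t - s) (u s) x)) := (stepD hGRAD h hM ht x).sub_const _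
  have hint : IntervalIntegrable (fun r => P (t - r) (fun y => f (u r y)) x) volume s t :=
    (intble_P hL h hM ht.le x).mono_set (by
      rw [uIcc_of_le hst.le, uIcc_of_le ht.le]
      exact Icc_subset_Icc_left hs.le)
  have h2 : Tendsto (fun t' => ∫ r in s..t', P (t - r) (fun y => f (u r y)) x) (𝓝[<] t)
      (𝓝 (∫ r in s..t, P (t - r) (fun y => f (u r y)) x)) := by
    have h3 := intervalIntegral.continuousOn_primitive_interval (a := s) (b := t)
      (f := fun r => P (t - r) (fun y => f (u r y)) x) (μ := volume) (by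
        rw [uIcc_of_le hst.le]
        rw [intervalIntegrable_iff_integrableOn_Icc_of_le hst.le] at hint
        exact hint)
    have h4 := h3 t right_mem_uIcc
    rw [uIcc_of_le hst.le] at h4
    have h5 : Tendsto (fun t' => ∫ r in s..t', P (t - r) (fun y => f (u r y)) x) (𝓝[Icc s t] t)
      (𝓝 (∫ r in s..t, P (t - r) (fun y => f (u r y)) x)) := h4
    refine h5.mono_left ?_
    rw [← nhdsWithin_Ioo_eq_nhdsLT hst]
    exact nhdsWithin_mono _ Ioo_subset_Icc_self
  have h3 : ∀ᶠ t' in 𝓝[<] t, P (t - t') (u t') x - P (t - s) (u s) x =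
      ∫ r in s..t', P (t - r) (fun y => f (u r y)) x := by
    filter_upwards [Ioo_mem_nhdsLT hst] with t' ht'
    exact stepC hHKE hIBP hCUT hGRAD hL h hM hs ht'.1 ht'.2 x
  have h4 := tendsto_nhds_unique (h1.congr' h3) h2
  linarith

end Pool.Agent.H70.RD.BR1
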