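import Pool.Agent.H70.RD.BR1

/-!
# MP_609556_an, module BR2: a classical solution is a mild solution from time `0` on
-/

open MeasureTheory Set Filter Topology Metric
open Pool.Agent.H29.TF
open Pool.Agent.H91.RD
open Pool.Agent.H70.RD.BR1

namespace Pool.Agent.H70.RD.BR2

variable {N : ℕ}

/-- comparison of the kernels at times in `[t/2, t]` -/
theorem hk_half {s t : ℝ} (ht : 0 < t) (hs0 : 0 ≤ s) (hs : s ≤ t / 2) (z : E N) :
    hk (t - s) z ≤ 2 ^ ((Module.finrank ℝ (E N) : ℝ) / 2) * hk t z := by
  unfold hk
  have hpi := Real.pi_pos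
  have e1 : (4 * Real.pi * (t - s)) ^ (-(Module.finrank ℝ (E N) : ℝ) / 2) ≤
      2 ^ ((Module.finrank ℝ (E N) : ℝ) / 2) *
        (4 * Real.pi * t) ^ (-(Module.finrank ℝ (E N) : ℝ) / 2) := by
    have h1 : (4 * Real.pi * (t - s)) ^ (-(Module.finrank ℝ (E N) : ℝ) / 2) ≤
        (4 * Real.pi * (t / 2)) ^ (-(Module.finrank ℝ (E N) : ℝ) / 2) := by
      apply Real.rpow_le_rpow_of_nonpos (by positivity)
      · apply mul_le_mul_of_nonneg_left (by linarith) (by positivity)
      · have : (0 : ℝ) ≤ (Module.finrank ℝ (E N) : ℝ) := Nat.cast_nonneg _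
        linarith
    have h2 : (4 * Real.pi * (t / 2)) ^ (-(Module.finrank ℝ (E N) : ℝ) / 2) =
        2 ^ ((Module.finrank ℝ (E N) : ℝ) / 2) *
          (4 * Real.pi * t) ^ (-(Module.finrank ℝ (E N) : ℝ) / 2) := by
      have h3 : 4 * Real.pi * (t / 2) = (2 : ℝ)⁻¹ * (4 * Real.pi * t) := by ring
      rw [h3, Real.mul_rpow (by positivity) (by positivity), Real.inv_rpow (by norm_num),
        neg_div, Real.rpow_neg (by norm_num : (0 : ℝ) ≤ 2), inv_inv]
    exact h1.trans h2.le
  have e2 : Real.exp (-‖z‖ ^ 2 / (4 * (t - s))) ≤ Real.exp (-‖z‖ ^ 2 / (4 * t)) := by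
    apply Real.exp_le_exp.2
    rw [neg_div, neg_div, neg_le_neg_iff]
    apply div_le_div_of_nonneg_left (by positivity) (by linarith) (by linarith)
  calc _ ≤ (2 ^ ((Module.finrank ℝ (E N) : ℝ) / 2) *
        (4 * Real.pi * t) ^ (-(Module.finrank ℝ (E N) : ℝ) / 2)) *
          Real.exp (-‖z‖ ^ 2 / (4 * t)) :=
        mul_le_mul e1 e2 (Real.exp_pos _).le (by positivity)
    _ = _ := by ring

theorem chi_meas {U : Set (E N)} (hU : MeasurableSet U) : Measurable (chi U) :=
  measurable_const.indicator hU

theorem chi_abs (U : Set (E N)) (x : E N) : |chi U x| ≤ 1 := by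
  rw [abs_of_nonneg (chi_nonneg U x)]; exact chi_le_one U x

/-- the tail of the kernel -/
theorem tail_hk {t : ℝ} (ht : 0 < t) (x : E N) :
    Tendsto (fun n : ℕ => ∫ y, ((ball (0 : E N) (n : ℝ))ᶜ).indicator (fun y => hk t (x - y)) y)
      atTop (𝓝 0) := by
  have h1 : Tendsto (fun n : ℕ => ∫ y, ((ball (0 : E N) (n : ℝ))ᶜ).indicator
      (fun y => hk t (x - y)) y) atTop (𝓝 (∫ _ : E N, (0 : ℝ))) := by
    apply tendsto_integral_of_dominated_convergence (fun y => hk t (x - y))
    · intro n
      exact ((integrable_hk_sub ht x).indicator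
        (isOpen_ball.measurableSet.compl)).aestronglyMeasurable
    · exact integrable_hk_sub ht x
    · intro n
      refine Filter.Eventually.of_forall fun y => ?_
      rw [Real.norm_eq_abs]
      by_cases hy : y ∈ (ball (0 : E N) (n : ℝ))ᶜ
      · rw [indicator_of_mem hy, abs_of_nonneg (hk_nonneg ht.le _)]
      · rw [indicator_of_notMem hy, abs_zero]; exact hk_nonneg ht.le _
    · refine Filter.Eventually.of_forall fun y => ?_
      apply tendsto_const_nhds.congr'
      obtain ⟨n0, hn0⟩ := exists_nat_gt ‖y‖
      filter_upwards [eventually_ge_atTop n0] with n hn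
      rw [indicator_of_notMem]
      intro hy
      apply hy
      rw [mem_ball_zero_iff]
      have : (n0 : ℝ) ≤ n := by exact_mod_cast hn
      linarith
  simpa using h1

/-- the initial value -/
theorem init_lim {f : ℝ → ℝ} {U : Set (E N)} (hU : MeasurableSet U) {u : ℝ → E N → ℝ}
    (h : IsSol f U u) {M : ℝ} (hM : ∀ t > 0, ∀ x, |u t x| ≤ M) {t : ℝ} (ht : 0 < t) (x : E N) :
    Tendsto (fun s => P (t - s) (u s) x) (𝓝[>] 0) (𝓝 (P t (chi U) x)) := by
  have hM0 : 0 ≤ M := (abs_nonneg _).trans (hM t ht 0)
  set c1 : ℝ := 2 ^ ((Module.finrank ℝ (E N) : ℝ) / 2) with hc1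
  have hc1p : 0 < c1 := by positivity
  have hk0 : 0 < hk t (0 : E N) := hk_pos ht _
  have hI : ∀ᶠ s : ℝ in 𝓝[>] 0, s ∈ Ioo 0 (t / 2) := Ioo_mem_nhdsGT (by positivity)
  -- first limit
  have l1 : Tendsto (fun s => P (t - s) (chi U) x) (𝓝[>] 0) (𝓝 (P t (chi U) x)) := by
    unfold P
    apply tendsto_integral_filter_of_dominated_convergence (fun y => c1 * hk t (x - y))
    · filter_upwards [hI] with s hs
      exact (integrable_hk_mul (by linarith [hs.2]) (chi_meas hU).aestronglyMeasurable
        (chi_abs U) x).aestronglyMeasurable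
    · filter_upwards [hI] with s hs
      refine Filter.Eventually.of_forall fun y => ?_
      have hτ : 0 < t - s := by linarith [hs.2]
      rw [norm_mul, Real.norm_of_nonneg (hk_nonneg hτ.le _), Real.norm_eq_abs]
      calc hk (t - s) (x - y) * |chi U y| ≤ hk (t - s) (x - y) * 1 :=
            mul_le_mul_of_nonneg_left (chi_abs U y) (hk_nonneg hτ.le _)
        _ ≤ _ := by rw [mul_one]; exact hk_half ht hs.1.le hs.2.le _
    · exact (integrable_hk_sub ht x).const_mul _
    · refine Filter.Eventually.of_forall fun y => ?_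
      apply Tendsto.mul_const
      have h1 : ContinuousAt (fun s : ℝ => hk (t - s) (x - y)) 0 := by
        have h2 : ContinuousAt (fun p : ℝ × E N => hk p.1 p.2) (t - 0, x - y) :=
          contOn_hk.continuousAt ((isOpen_Ioi.prod isOpen_univ).mem_nhds
            ⟨by rw [sub_zero]; exact ht, mem_univ _⟩)
        exact ContinuousAt.comp (f := fun s : ℝ => (t - s, x - y))
          (g := fun p : ℝ × E N => hk p.1 p.2) h2 (by fun_prop)
      have h3 := h1.tendsto
      rw [sub_zero] at h3
      exact h3.mono_left nhdsWithin_le_nhds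
  -- second limit
  have l2 : Tendsto (fun s => P (t - s) (u s) x - P (t - s) (chi U) x) (𝓝[>] 0) (𝓝 0) := by
    rw [Metric.tendsto_nhds]
    intro ε hε
    have ht1 : Tendsto (fun n : ℕ => ((M + 1) * c1) * ∫ y, ((ball (0 : E N) (n : ℝ))ᶜ).indicator
        (fun y => hk t (x - y)) y) atTop (𝓝 0) := by
      have := (tail_hk ht x).const_mul ((M + 1) * c1)
      simpa using this
    obtain ⟨n, hn1, hn2⟩ := ((ht1.eventually (gt_mem_nhds (show (0 : ℝ) < ε / 2 by positivity))).and
      (eventually_ge_atTop 1)).exists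
    have hn0 : (0 : ℝ) < n := by exact_mod_cast hn2
    have hi := h.init n hn0
    have hi2 : Tendsto (fun s => (c1 * hk t (0 : E N)) *
        ∫ x in ball (0 : E N) n, |u s x - chi U x|) (𝓝[>] 0) (𝓝 0) := by
      have := hi.const_mul (c1 * hk t (0 : E N))
      simpa using this
    filter_upwards [hI, hi2.eventually (gt_mem_nhds (show (0 : ℝ) < ε / 2 by positivity))]
      with s hs hs2
    have hτ : 0 < t - s := by linarith [hs.2]
    have i1 : Integrable (fun y => hk (t - s) (x - y) * u s y) :=
      integrable_hk_mul hτ (sol_cont h hs.1).aestronglyMeasurable (fun y => hM s hs.1 y) x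
    have i2 : Integrable (fun y : E N => hk (t - s) (x - y) * chi U y) :=
      integrable_hk_mul hτ (chi_meas hU).aestronglyMeasurable (chi_abs U) x
    have hdb : ∀ y, |u s y - chi U y| ≤ M + 1 := by
      intro y
      have := abs_sub (u s y) (chi U y)
      linarith [hM s hs.1 y, chi_abs U y]
    have hdm : AEStronglyMeasurable (fun y => |u s y - chi U y|) volume := by
      have h1 : Measurable (u s) := (sol_cont h hs.1).measurable
      exact ((h1.sub (chi_meas hU)).norm).aestronglyMeasurable
    have i3 : Integrable ((ball (0 : E N) (n : ℝ)).indicator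
        (fun y => (c1 * hk t (0 : E N)) * |u s y - chi U y|)) := by
      rw [integrable_indicator_iff isOpen_ball.measurableSet]
      apply Integrable.const_mul
      apply Integrable.mono' (g := fun _ => M + 1)
      · exact integrableOn_const (measure_ball_lt_top).ne
      · exact hdm.restrict
      · refine Filter.Eventually.of_forall fun y => ?_
        rw [Real.norm_eq_abs, abs_abs]
        exact hdb y
    have i4 : Integrable (((ball (0 : E N) (n : ℝ))ᶜ).indicator
        (fun y => ((M + 1) * c1) * hk t (x - y))) :=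
      ((integrable_hk_sub ht x).const_mul _).indicator isOpen_ball.measurableSet.compl
    rw [Real.dist_eq, sub_zero, ← P_sub x i1 i2]
    calc |P (t - s) (fun y => u s y - chi U y) x| ≤
        ∫ y, ((ball (0 : E N) (n : ℝ)).indicator
          (fun y => (c1 * hk t (0 : E N)) * |u s y - chi U y|) y +
          ((ball (0 : E N) (n : ℝ))ᶜ).indicator (fun y => ((M + 1) * c1) * hk t (x - y)) y) := by
          unfold P
          rw [← Real.norm_eq_abs]
          apply norm_integral_le_of_norm_le (i3.add i4)
          refine Filter.Eventually.of_forall fun y => ?_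
          rw [norm_mul, Real.norm_of_nonneg (hk_nonneg hτ.le _), Real.norm_eq_abs]
          have hh := hk_half ht hs.1.le hs.2.le (x - y)
          simp only [Pi.add_apply]
          by_cases hy : y ∈ ball (0 : E N) (n : ℝ)
          · rw [indicator_of_mem hy, indicator_of_notMem (by simpa using hy), add_zero]
            apply mul_le_mul_of_nonneg_right _ (abs_nonneg _)
            exact hh.trans (mul_le_mul_of_nonneg_left (hk_le ht _) hc1p.le)
          · rw [indicator_of_notMem hy, indicator_of_mem (by simpa using hy), zero_add]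
            calc hk (t - s) (x - y) * |u s y - chi U y| ≤ (c1 * hk t (x - y)) * (M + 1) :=
                  mul_le_mul hh (hdb y) (abs_nonneg _)
                    (mul_nonneg hc1p.le (hk_nonneg ht.le _))
              _ = _ := by ring
      _ = (c1 * hk t (0 : E N)) * (∫ x in ball (0 : E N) n, |u s x - chi U x|) +
          ((M + 1) * c1) * ∫ y, ((ball (0 : E N) (n : ℝ))ᶜ).indicator
            (fun y => hk t (x - y)) y := by
          rw [integral_add i3 i4, integral_indicator isOpen_ball.measurableSet,
            integral_const_mul, ← integral_const_mul ((M + 1) * c1)]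
          congr 2
          ext y
          by_cases hy : y ∈ (ball (0 : E N) (n : ℝ))ᶜ
          · rw [indicator_of_mem hy, indicator_of_mem hy]
          · rw [indicator_of_notMem hy, indicator_of_notMem hy, mul_zero]
      _ < ε := by linarith
  have := l2.add l1
  simpa using this

/-- [BR2] -/
theorem t_BR2 (hBR1 : T_BR1) : T_BR2 := by
  intro N f K U u hL hU h
  obtain ⟨M, hM⟩ := h.bdd
  have hcongr : ∀ {s t : ℝ}, 0 ≤ s → s ≤ t → ∀ x,
      ∫ r in s..t, P (t - r) (fun y => f (lift0 U u r y)) x =
        ∫ r in s..t, P (t - r) (fun y => f (u r y)) x := by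
    intro s t hs hst x
    rw [intervalIntegral.integral_of_le hst, intervalIntegral.integral_of_le hst]
    apply setIntegral_congr_fun measurableSet_Ioc
    intro r hr
    simp only
    rw [lift0_pos (lt_of_le_of_lt hs hr.1)]
  refine ⟨⟨max M 1, ?_⟩, ?_, ?_, ?_⟩
  · intro t ht x
    rcases eq_or_lt_of_le (show (0 : ℝ) ≤ t from ht) with h0 | h0
    · rw [lift0_nonpos h0.ge]
      exact (chi_abs U x).trans (le_max_right _ _)
    · rw [lift0_pos h0]
      exact (hM t h0 x).trans (le_max_left _ _)
  · rw [lift0_nonpos le_rfl]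
    exact chi_meas hU
  · apply h.cont.congr
    rintro ⟨t, x⟩ ⟨ht, -⟩
    simp only
    rw [lift0_pos ht]
  · intro s t hs hst x
    have ht : 0 < t := lt_of_le_of_lt hs hst
    rcases eq_or_lt_of_le hs with h0 | h0
    · subst h0
      rw [hcongr le_rfl ht.le, lift0_pos ht, lift0_nonpos le_rfl, sub_zero]
      have h1 : Tendsto (fun s => P (t - s) (u s) x +
          ∫ r in s..t, P (t - r) (fun y => f (u r y)) x) (𝓝[>] 0)
          (𝓝 (P t (chi U) x + ∫ r in (0 : ℝ)..t, P (t - r) (fun y => f (u r y)) x)) := by
        apply (init_lim hU h hM ht x).add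
        have hint := intble_P hL h hM ht.le x
        have h3 := intervalIntegral.continuousOn_primitive_interval_left (a := 0) (b := t)
          (f := fun r => P (t - r) (fun y => f (u r y)) x) (μ := volume) (by
            rw [uIcc_of_le ht.le]
            rw [intervalIntegrable_iff_integrableOn_Icc_of_le ht.le] at hint
            exact hint)
        have h4 := h3 0 left_mem_uIcc
        rw [uIcc_of_le ht.le] at h4
        refine Tendsto.mono_left h4 ?_
        rw [← nhdsWithin_Ioo_eq_nhdsGT ht]
        exact nhdsWithin_mono _ Ioo_subset_Icc_self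
      have h2 : ∀ᶠ s in 𝓝[>] (0 : ℝ), u t x = P (t - s) (u s) x +
          ∫ r in s..t, P (t - r) (fun y => f (u r y)) x := by
        filter_upwards [Ioo_mem_nhdsGT ht] with s hs
        exact hBR1 N f K U u hL h s t hs.1 hs.2 x
      exact tendsto_nhds_unique (tendsto_const_nhds.congr' h2) h1
    · rw [hcongr hs hst.le, lift0_pos ht, lift0_pos h0]
      exact hBR1 N f K U u hL h s t h0 hst x

end Pool.Agent.H70.RD.BR2
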