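import Pool.Agent.H70.RD.HeatAux

/-!
# MP_609556_an, module C2: entire mild solutions are `C²` along lines
-/

open MeasureTheory Set Filter Topology Metric
open Pool.Agent.H29.TF
open Pool.Agent.H91.RD

namespace Pool.Agent.H70.RD.C2

variable {N : ℕ}

/-- derivative of the heat kernel in direction `e` -/
noncomputable def kd (e : E N) (τ : ℝ) (z : E N) : ℝ := -(1 / (2 * τ)) * hk τ z * inner ℝ z e

/-- derivative of `P τ g` in direction `e` -/
noncomputable def D (e : E N) (τ : ℝ) (g : E N → ℝ) (x : E N) : ℝ := ∫ y, kd e τ (x - y) * g y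

theorem continuous_kd (e : E N) (τ : ℝ) : Continuous (kd e τ) := by
  unfold kd; fun_prop

theorem integrable_norm_hk {τ : ℝ} (hτ : 0 < τ) : Integrable (fun z : E N => ‖z‖ * hk τ z) := by
  refine (integrable_one_add_norm_mul_hk hτ).mono' (Continuous.aestronglyMeasurable (by fun_prop))
    (Filter.Eventually.of_forall fun z => ?_)
  rw [Real.norm_of_nonneg (mul_nonneg (norm_nonneg _) (hk_nonneg hτ.le _))]
  exact mul_le_mul_of_nonneg_right (by linarith) (hk_nonneg hτ.le _)

/-- [2] the derivative of `P τ g` along a line -/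
theorem hasDerivAt_P (e : E N) {τ : ℝ} (hτ : 0 < τ) {g : E N → ℝ}
    (hg : AEStronglyMeasurable g volume) {M : ℝ} (hM : ∀ y, |g y| ≤ M) (x : E N) (s : ℝ) :
    HasDerivAt (fun s : ℝ => P τ g (x + s • e)) (D e τ g (x + s • e)) s := by
  have h1 := hasFDerivAt_P hτ hg hM (x + s • e)
  have h2 : HasDerivAt (fun s : ℝ => x + s • e) e s := by
    have := ((hasDerivAt_id s).smul_const e).const_add x
    simpa using this
  have h3 := h1.comp_hasDerivAt s h2
  refine h3.congr_deriv ?_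
  have hint : Integrable (fun y => (-(1 / (2 * τ)) * (hk τ (x + s • e - y) * g y)) •
      (innerSL ℝ (x + s • e - y) : E N →L[ℝ] ℝ)) := by
    have h4 : Integrable (fun y : E N => (1 / (2 * τ)) * M *
        (‖x + s • e - y‖ * hk τ (x + s • e - y))) :=
      ((integrable_norm_hk hτ).comp_sub_left (x + s • e)).const_mul _
    refine h4.mono' ?_ (Filter.Eventually.of_forall fun y => ?_)
    · exact ((integrable_hk_mul hτ hg hM (x + s • e)).aestronglyMeasurable.const_mul
        (-(1 / (2 * τ)))).smul (Continuous.aestronglyMeasurable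
        (f := fun y : E N => (innerSL ℝ (x + s • e - y) : E N →L[ℝ] ℝ)) (by fun_prop))
    · rw [norm_smul, innerSL_apply_norm, norm_mul, norm_neg, norm_mul,
        Real.norm_of_nonneg (by positivity : 0 ≤ 1 / (2 * τ)), Real.norm_of_nonneg (hk_nonneg hτ.le _),
        Real.norm_eq_abs]
      have h5 := hk_nonneg hτ.le (x + s • e - y)
      calc 1 / (2 * τ) * (hk τ (x + s • e - y) * |g y|) * ‖x + s • e - y‖ =
          (1 / (2 * τ)) * (‖x + s • e - y‖ * hk τ (x + s • e - y)) * |g y| := by ring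
        _ ≤ (1 / (2 * τ)) * (‖x + s • e - y‖ * hk τ (x + s • e - y)) * M :=
            mul_le_mul_of_nonneg_left (hM y) (by positivity)
        _ = _ := by ring
  rw [ContinuousLinearMap.integral_apply hint]
  unfold D kd
  congr 1
  ext y
  rw [smul_apply, innerSL_apply_apply, smul_eq_mul]
  ring

/-- [3] measurability -/
theorem aesm_D (e : E N) (τ : ℝ) {g : E N → ℝ} (hg : AEStronglyMeasurable g volume) :
    AEStronglyMeasurable (D e τ g) volume := by
  have h1 : AEStronglyMeasurable (fun p : E N × E N => kd e τ (p.1 - p.2) * g p.2)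
      (volume.prod volume) := by
    apply AEStronglyMeasurable.mul
    · have := continuous_kd e τ
      exact Continuous.aestronglyMeasurable (by fun_prop)
    · exact hg.comp_snd
  exact h1.integral_prod_right'

/-- a derivative is bounded by the Lipschitz constant -/
theorem deriv_le {h : ℝ → ℝ} {s d L : ℝ} (hd : HasDerivAt h d s) (hL : 0 ≤ L)
    (hl : ∀ a b, |h a - h b| ≤ L * |a - b|) : |d| ≤ L := by
  have h1 : LipschitzWith (Real.toNNReal L) h := by
    refine LipschitzWith.of_dist_le_mul fun a b => ?_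
    rw [Real.dist_eq, Real.dist_eq, Real.coe_toNNReal _ hL]
    exact hl a b
  have h2 := hd.le_of_lipschitz h1
  rwa [Real.norm_eq_abs, Real.coe_toNNReal _ hL] at h2

/-- [6a] -/
theorem abs_D_le (hGRAD : ∃ A : ℝ, 1 ≤ A ∧
    (∀ t > 0, ∀ (g : E N → ℝ) (M : ℝ), AEStronglyMeasurable g volume → (∀ y, |g y| ≤ M) →
      ∀ x y, |P t g x - P t g y| ≤ A * M / √t * ‖x - y‖)) : ∃ A : ℝ, 1 ≤ A ∧
    ∀ e : E N, ‖e‖ = 1 → ∀ τ > 0, ∀ (g : E N → ℝ) (M : ℝ), AEStronglyMeasurable g volume →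
      (∀ y, |g y| ≤ M) → ∀ x, |D e τ g x| ≤ A * M / √τ := by
  obtain ⟨A, hA, h⟩ := hGRAD
  refine ⟨A, hA, ?_⟩
  intro e he τ hτ g M hg hM x
  have hM0 : 0 ≤ M := (abs_nonneg _).trans (hM 0)
  have h1 := hasDerivAt_P e hτ hg hM x 0
  rw [zero_smul, add_zero] at h1
  apply deriv_le h1 (by positivity)
  intro a b
  have h2 := h τ hτ g M hg hM (x + a • e) (x + b • e)
  rw [add_sub_add_left_eq_sub, ← sub_smul, norm_smul, he, mul_one, Real.norm_eq_abs] at h2
  exact h2

/-- `P` preserves Lipschitz functions -/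
theorem P_lip {τ : ℝ} (hτ : 0 < τ) {g : E N → ℝ} (hgc : Continuous g) {M L : ℝ}
    (hM : ∀ y, |g y| ≤ M) (hL : ∀ x y, |g x - g y| ≤ L * ‖x - y‖) (x y : E N) :
    |P τ g x - P τ g y| ≤ L * ‖x - y‖ := by
  rw [P_eq_conv, P_eq_conv]
  have hi : ∀ x : E N, Integrable (fun z => hk τ z * g (x - z)) := fun x =>
    (integrable_hk hτ).mul_bdd (c := M) (Continuous.aestronglyMeasurable (by fun_prop))
      (Filter.Eventually.of_forall fun z => hM _)
  rw [← integral_sub (hi x) (hi y), ← Real.norm_eq_abs]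
  have h2 : ‖∫ z, (hk τ z * g (x - z) - hk τ z * g (y - z))‖ ≤
      ∫ z : E N, hk τ z * (L * ‖x - y‖) := by
    apply norm_integral_le_of_norm_le ((integrable_hk (V := E N) hτ).mul_const _)
    refine Filter.Eventually.of_forall fun z => ?_
    rw [← mul_sub, norm_mul, Real.norm_of_nonneg (hk_nonneg hτ.le _), Real.norm_eq_abs]
    apply mul_le_mul_of_nonneg_left _ (hk_nonneg hτ.le _)
    have := hL (x - z) (y - z)
    rwa [sub_sub_sub_cancel_right] at this
  rw [integral_mul_const, integral_hk hτ, one_mul] at h2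
  exact h2

/-- [6b] -/
theorem abs_D_le_lip (e : E N) (he : ‖e‖ = 1) {τ : ℝ} (hτ : 0 < τ) {g : E N → ℝ}
    (hgc : Continuous g) {M L : ℝ} (hL0 : 0 ≤ L) (hM : ∀ y, |g y| ≤ M)
    (hL : ∀ x y, |g x - g y| ≤ L * ‖x - y‖) (x : E N) : |D e τ g x| ≤ L := by
  have h1 := hasDerivAt_P e hτ hgc.aestronglyMeasurable hM x 0
  rw [zero_smul, add_zero] at h1
  apply deriv_le h1 hL0
  intro a b
  have h2 := P_lip hτ hgc hM hL (x + a • e) (x + b • e)
  rw [add_sub_add_left_eq_sub, ← sub_smul, norm_smul, he, mul_one, Real.norm_eq_abs] at h2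
  exact h2

/-- [4] `D τ = P (τ/2) (D (τ/2))` -/
theorem D_eq (e : E N) {σ : ℝ} (hσ : 0 < σ) {g : E N → ℝ}
    (hg : AEStronglyMeasurable g volume) {M B : ℝ} (hM : ∀ y, |g y| ≤ M)
    (hB : ∀ y, |D e σ g y| ≤ B) (x : E N) :
    D e (σ + σ) g x = P σ (D e σ g) x := by
  have h1 := hasDerivAt_P e (add_pos hσ hσ) hg hM x 0
  rw [zero_smul, add_zero] at h1
  have hPb : ∀ y, |P σ g y| ≤ M := fun y => abs_P_le hσ hM y
  have hPc : Continuous (P σ g) := continuous_P hσ hg hM
  have e1 : (fun s : ℝ => P (σ + σ) g (x + s • e)) =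
      fun s : ℝ => ∫ z, hk σ z * P σ g (x + s • e - z) := by
    ext s
    rw [← P_P hσ hσ hg hM, P_eq_conv]
  rw [e1] at h1
  have hDm : AEStronglyMeasurable (fun z => D e σ g (x - z)) volume :=
    (aesm_D e σ hg).comp_quasiMeasurePreserving
      (quasiMeasurePreserving_sub_left_of_right_invariant volume x)
  have h2 := hasDerivAt_integral_of_dominated_loc_of_deriv_le (𝕜 := ℝ) (μ := volume)
    (F := fun (s : ℝ) (z : E N) => hk σ z * P σ g (x + s • e - z))
    (F' := fun (s : ℝ) (z : E N) => hk σ z * D e σ g (x + s • e - z))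
    (x₀ := 0) (s := univ) (bound := fun z => hk σ z * B) Filter.univ_mem
    (Filter.Eventually.of_forall fun s => Continuous.aestronglyMeasurable (by fun_prop))
    ((integrable_hk hσ).mul_bdd (c := M) (Continuous.aestronglyMeasurable (by fun_prop))
      (Filter.Eventually.of_forall fun z => hPb _))
    (by
      simp only [zero_smul, add_zero]
      exact (Continuous.aestronglyMeasurable (by fun_prop : Continuous fun z : E N => hk σ z)).mul hDm)
    (Filter.Eventually.of_forall fun z s _ => by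
      rw [norm_mul, Real.norm_of_nonneg (hk_nonneg hσ.le _), Real.norm_eq_abs]
      exact mul_le_mul_of_nonneg_left (hB _) (hk_nonneg hσ.le _))
    ((integrable_hk hσ).mul_const B)
    (Filter.Eventually.of_forall fun z s _ => by
      have h3 := hasDerivAt_P e hσ hg hM (x - z) s
      have h4 := h3.const_mul (hk σ z)
      have e2 : ∀ s : ℝ, x + s • e - z = x - z + s • e := fun s => by abel
      simp only [e2]
      exact h4)
  have h3 := h2.2
  simp only [zero_smul, add_zero] at h3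
  rw [h1.unique h3, P_eq_conv]

/-- [7] continuity -/
theorem continuous_D (hGRAD : ∃ A : ℝ, 1 ≤ A ∧
    ∀ e : E N, ‖e‖ = 1 → ∀ τ > 0, ∀ (g : E N → ℝ) (M : ℝ), AEStronglyMeasurable g volume →
      (∀ y, |g y| ≤ M) → ∀ x, |D e τ g x| ≤ A * M / √τ) (e : E N) (he : ‖e‖ = 1)
    {τ : ℝ} (hτ : 0 < τ) {g : E N → ℝ}
    (hg : AEStronglyMeasurable g volume) {M : ℝ} (hM : ∀ y, |g y| ≤ M) :
    Continuous (D e τ g) := by
  obtain ⟨A, hA, h⟩ := hGRAD
  have hσ : 0 < τ / 2 := by positivity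
  have hb := h e he (τ / 2) hσ g M hg hM
  have h1 : D e τ g = P (τ / 2) (D e (τ / 2) g) := by
    ext x
    have := D_eq e hσ hg hM hb x
    rwa [add_halves] at this
  rw [h1]
  exact continuous_P hσ (aesm_D e _ hg) hb

/-- [5] second derivative -/
theorem hasDerivAt_D (hGRAD : ∃ A : ℝ, 1 ≤ A ∧
    ∀ e : E N, ‖e‖ = 1 → ∀ τ > 0, ∀ (g : E N → ℝ) (M : ℝ), AEStronglyMeasurable g volume →
      (∀ y, |g y| ≤ M) → ∀ x, |D e τ g x| ≤ A * M / √τ) (e : E N) (he : ‖e‖ = 1)
    {τ : ℝ} (hτ : 0 < τ) {g : E N → ℝ}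
    (hg : AEStronglyMeasurable g volume) {M : ℝ} (hM : ∀ y, |g y| ≤ M) (x : E N) (s : ℝ) :
    HasDerivAt (fun s : ℝ => D e τ g (x + s • e))
      (D e (τ / 2) (D e (τ / 2) g) (x + s • e)) s := by
  obtain ⟨A, hA, h⟩ := hGRAD
  have hσ : 0 < τ / 2 := by positivity
  have hb := h e he (τ / 2) hσ g M hg hM
  have h1 : D e τ g = P (τ / 2) (D e (τ / 2) g) := by
    ext x
    have := D_eq e hσ hg hM hb x
    rwa [add_halves] at this
  rw [h1]
  exact hasDerivAt_P e hσ (aesm_D e _ hg) hb x s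

/-- measurability in time of `P (-r) (g r) x` -/
theorem aesm_time {F : ℝ × E N → ℝ} (hF : Continuous F) (x : E N) :
    AEStronglyMeasurable (fun r => P (-r) (fun y => F (r, y)) x)
      (volume.restrict (Ioo (-1 : ℝ) 0)) := by
  have h1 : ContinuousOn (fun p : ℝ × E N => hk (-p.1) (x - p.2) * F p) (Ioo (-1) 0 ×ˢ univ) := by
    apply ContinuousOn.mul _ hF.continuousOn
    apply contOn_hk.comp (f := fun p : ℝ × E N => (-p.1, x - p.2)) (by fun_prop)
    intro p hp
    refine ⟨?_, mem_univ _⟩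
    show 0 < -p.1
    linarith [hp.1.2]
  have h2 := (aesm_strip h1).integral_prod_right'
  exact h2

/-- derivatives along a line are measurable in the parameter -/
theorem aesm_deriv {S : Set ℝ} (hS : MeasurableSet S) {G G' : ℝ → ℝ → ℝ} (z : ℝ)
    (hG : ∀ z, AEStronglyMeasurable (G z) (volume.restrict S))
    (hd : ∀ r ∈ S, HasDerivAt (fun z => G z r) (G' z r) z) :
    AEStronglyMeasurable (G' z) (volume.restrict S) := by
  apply aestronglyMeasurable_of_tendsto_ae (u := (atTop : Filter ℕ))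
    (f := fun (n : ℕ) (r : ℝ) => ((n : ℝ) + 1) * (G (z + ((n : ℝ) + 1)⁻¹) r - G z r))
  · intro n
    exact ((hG _).sub (hG _)).const_mul _
  · rw [ae_restrict_iff' hS]
    refine Filter.Eventually.of_forall fun r hr => ?_
    have h1 := (hd r hr).tendsto_slope_zero
    have h2 : Tendsto (fun n : ℕ => ((n : ℝ) + 1)⁻¹) atTop (𝓝[≠] 0) := by
      apply tendsto_nhdsWithin_of_tendsto_nhds_of_eventually_within
      · exact tendsto_inv_atTop_zero.comp
          (tendsto_natCast_atTop_atTop.atTop_add tendsto_const_nhds)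
      · refine Filter.Eventually.of_forall fun n => ?_
        have : (0 : ℝ) ≤ n := Nat.cast_nonneg n
        have h3 : (0 : ℝ) < ((n : ℝ) + 1)⁻¹ := by positivity
        exact h3.ne'
    have h3 := h1.comp h2
    refine h3.congr fun n => ?_
    simp only [Function.comp, inv_inv, smul_eq_mul]

theorem intervalIntegrable_inv_sqrt (c : ℝ) :
    IntervalIntegrable (fun r : ℝ => c / √(-r / 2)) volume (-1) 0 := by
  have h1 : IntervalIntegrable (fun r : ℝ => r ^ (-(1 / 2) : ℝ)) volume 0 1 :=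
    intervalIntegral.intervalIntegrable_rpow' (by norm_num)
  have h2 : IntervalIntegrable (fun r : ℝ => (-r) ^ (-(1 / 2) : ℝ)) volume (-1) 0 := by
    have h4 := (IntervalIntegrable.iff_comp_neg (f := fun r : ℝ => r ^ (-(1 / 2) : ℝ))
      (a := 0) (b := 1)).1 h1
    rw [neg_zero] at h4
    exact h4.symm
  have h3 := h2.const_mul (c * √2)
  refine h3.congr_ae ?_ |>.mono_set le_rfl
  rw [Filter.EventuallyEq, ae_restrict_iff' measurableSet_uIoc]
  have h0 : ∀ᵐ r : ℝ ∂volume, r ≠ 0 := by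
    have : volume ({0} : Set ℝ) = 0 := by simp
    exact measure_eq_zero_iff_ae_notMem.1 this
  filter_upwards [h0] with r hr0 hr
  rw [uIoc_of_le (by norm_num)] at hr
  have hr1 : 0 < -r := by
    have := lt_of_le_of_ne hr.2 hr0
    linarith
  rw [Real.rpow_neg hr1.le, ← Real.sqrt_eq_rpow, Real.sqrt_div hr1.le, div_div_eq_mul_div]
  rw [div_eq_mul_inv]

/-- [C2] -/
theorem t_C2 (hGRAD : T_GRAD) (hREG : T_REG) : T_C2 := by
  intro N f K w e hL hE he
  obtain ⟨A0, hA0, hg0, -⟩ := hGRAD N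
  have hG := abs_D_le ⟨A0, hA0, hg0⟩
  obtain ⟨A, hA, hAb⟩ := id hG
  obtain ⟨Λ, hΛ, hreg⟩ := hREG N K hL.K0
  have hlip : ∀ r ≥ (-1 : ℝ), ∀ x y, |w r x - w r y| ≤ Λ * ‖x - y‖ := by
    intro r hr
    exact (hreg f (-2) w hL (hE.1 (-2)) (fun t _ x => hE.2 t x)).1 r (by linarith)
  have hf := hL.continuous
  have hwc := hE.continuous
  have hw1 : ∀ t x, |w t x| ≤ 1 := fun t x => by
    rw [abs_of_nonneg (hE.2 t x).1]; exact (hE.2 t x).2
  have hK := hL.K0
  -- the source
  have hFc : Continuous (fun p : ℝ × E N => f (w p.1 p.2)) := hf.comp hwc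
  have hFr : ∀ r, Continuous (fun y => f (w r y)) := fun r => hf.comp (hE.continuous_space r)
  have hFb : ∀ r y, |f (w r y)| ≤ K := by
    intro r y
    refine (hL.abs_le _).trans ?_
    calc K * |w r y| ≤ K * 1 := mul_le_mul_of_nonneg_left (hw1 r y) hK.le
      _ = K := mul_one K
  have hFl : ∀ r ≥ (-1 : ℝ), ∀ x y, |f (w r x) - f (w r y)| ≤ (K * Λ) * ‖x - y‖ := by
    intro r hr x y
    refine (hL.lip _ _).trans ?_
    calc K * |w r x - w r y| ≤ K * (Λ * ‖x - y‖) := mul_le_mul_of_nonneg_left (hlip r hr x y) hK.le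
      _ = _ := by ring
  have hKΛ : 0 ≤ K * Λ := by positivity
  set F : ℝ → E N → ℝ := fun r y => f (w r y) with hF
  -- the three families
  set G0 : ℝ → ℝ → ℝ := fun z r => P (-r) (F r) (0 + z • e) with hG0
  set G1 : ℝ → ℝ → ℝ := fun z r => D e (-r) (F r) (0 + z • e) with hG1
  set G2 : ℝ → ℝ → ℝ := fun z r => D e (-r / 2) (D e (-r / 2) (F r)) (0 + z • e) with hG2
  have hd1 : ∀ z, ∀ r ∈ Ioo (-1 : ℝ) 0, HasDerivAt (fun z => G0 z r) (G1 z r) z := by
    intro z r hr
    exact hasDerivAt_P e (by linarith [hr.2]) (hFr r).aestronglyMeasurable (hFb r) 0 z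
  have hd2 : ∀ z, ∀ r ∈ Ioo (-1 : ℝ) 0, HasDerivAt (fun z => G1 z r) (G2 z r) z := by
    intro z r hr
    exact hasDerivAt_D hG e he (by linarith [hr.2]) (hFr r).aestronglyMeasurable (hFb r) 0 z
  have hb1 : ∀ z, ∀ r ∈ Ioo (-1 : ℝ) 0, |G1 z r| ≤ K * Λ := by
    intro z r hr
    exact abs_D_le_lip e he (by linarith [hr.2]) (hFr r) hKΛ (hFb r)
      (hFl r hr.1.le) _
  have hb2 : ∀ z, ∀ r ∈ Ioo (-1 : ℝ) 0, |G2 z r| ≤ A * (K * Λ) / √(-r / 2) := by
    intro z r hr
    have hσ : 0 < -r / 2 := by linarith [hr.2]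
    exact hAb e he (-r / 2) hσ _ _ (aesm_D e _ (hFr r).aestronglyMeasurable)
      (fun y => abs_D_le_lip e he hσ (hFr r) hKΛ (hFb r) (hFl r hr.1.le) y) _
  have hm0 : ∀ z, AEStronglyMeasurable (G0 z) (volume.restrict (Ioo (-1 : ℝ) 0)) := by
    intro z
    exact aesm_time hFc (0 + z • e)
  have hm1 : ∀ z, AEStronglyMeasurable (G1 z) (volume.restrict (Ioo (-1 : ℝ) 0)) := by
    intro z
    exact aesm_deriv measurableSet_Ioo z hm0 (hd1 z)
  have hm2 : ∀ z, AEStronglyMeasurable (G2 z) (volume.restrict (Ioo (-1 : ℝ) 0)) := by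
    intro z
    exact aesm_deriv measurableSet_Ioo z hm1 (hd2 z)
  -- passage from Ioo to uIoc
  have huI : volume.restrict (uIoc (-1 : ℝ) 0) = volume.restrict (Ioo (-1 : ℝ) 0) := by
    rw [uIoc_of_le (by norm_num)]
    exact (Measure.restrict_congr_set Ioo_ae_eq_Ioc).symm
  have hae : ∀ p : ℝ → Prop, (∀ r ∈ Ioo (-1 : ℝ) 0, p r) →
      ∀ᵐ r : ℝ ∂volume, r ∈ uIoc (-1 : ℝ) 0 → p r := by
    intro p hp
    have h0 : ∀ᵐ r : ℝ ∂volume, r ≠ 0 := by
      have : volume ({0} : Set ℝ) = 0 := by simp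
      exact measure_eq_zero_iff_ae_notMem.1 this
    filter_upwards [h0] with r hr0 hr
    rw [uIoc_of_le (by norm_num)] at hr
    exact hp r ⟨hr.1, lt_of_le_of_ne hr.2 hr0⟩
  have hint0 : ∀ z, IntervalIntegrable (G0 z) volume (-1) 0 := by
    intro z
    rw [intervalIntegrable_iff_integrableOn_Ioo_of_le (by norm_num)]
    apply Integrable.mono' (g := fun _ => K)
    · exact integrableOn_const (by rw [Real.volume_Ioo]; exact ENNReal.ofReal_ne_top)
    · exact hm0 z
    · rw [ae_restrict_iff' measurableSet_Ioo]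
      refine Filter.Eventually.of_forall fun r hr => ?_
      rw [Real.norm_eq_abs]
      exact abs_P_le (by linarith [hr.2]) (hFb r) _
  have hint1 : ∀ z, IntervalIntegrable (G1 z) volume (-1) 0 := by
    intro z
    rw [intervalIntegrable_iff_integrableOn_Ioo_of_le (by norm_num)]
    apply Integrable.mono' (g := fun _ => K * Λ)
    · exact integrableOn_const (by rw [Real.volume_Ioo]; exact ENNReal.ofReal_ne_top)
    · exact hm1 z
    · rw [ae_restrict_iff' measurableSet_Ioo]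
      refine Filter.Eventually.of_forall fun r hr => ?_
      rw [Real.norm_eq_abs]
      exact hb1 z r hr
  -- differentiation under the integral
  have hI1 : ∀ z, HasDerivAt (fun z => ∫ r in (-1 : ℝ)..0, G0 z r)
      (∫ r in (-1 : ℝ)..0, G1 z r) z := by
    intro z
    have := intervalIntegral.hasDerivAt_integral_of_dominated_loc_of_deriv_le (𝕜 := ℝ)
      (μ := volume) (a := -1) (b := 0) (F := G0) (F' := G1) (x₀ := z) (s := univ)
      (bound := fun _ => K * Λ) Filter.univ_mem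
      (Filter.Eventually.of_forall fun z => by rw [huI]; exact hm0 z) (hint0 z)
      (by rw [huI]; exact hm1 z)
      (hae _ fun r hr z _ => by rw [Real.norm_eq_abs]; exact hb1 z r hr)
      intervalIntegrable_const (hae _ fun r hr z _ => hd1 z r hr)
    exact this.2
  have hI2 : ∀ z, HasDerivAt (fun z => ∫ r in (-1 : ℝ)..0, G1 z r)
      (∫ r in (-1 : ℝ)..0, G2 z r) z := by
    intro z
    have := intervalIntegral.hasDerivAt_integral_of_dominated_loc_of_deriv_le (𝕜 := ℝ)
      (μ := volume) (a := -1) (b := 0) (F := G1) (F' := G2) (x₀ := z) (s := univ)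
      (bound := fun r => A * (K * Λ) / √(-r / 2)) Filter.univ_mem
      (Filter.Eventually.of_forall fun z => by rw [huI]; exact hm1 z) (hint1 z)
      (by rw [huI]; exact hm2 z)
      (hae _ fun r hr z _ => by rw [Real.norm_eq_abs]; exact hb2 z r hr)
      (intervalIntegrable_inv_sqrt _) (hae _ fun r hr z _ => hd2 z r hr)
    exact this.2
  have hI3 : Continuous (fun z => ∫ r in (-1 : ℝ)..0, G2 z r) := by
    apply intervalIntegral.continuous_of_dominated_interval
      (bound := fun r => A * (K * Λ) / √(-r / 2))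
    · intro z; rw [huI]; exact hm2 z
    · intro z
      exact hae _ fun r hr => by rw [Real.norm_eq_abs]; exact hb2 z r hr
    · exact intervalIntegrable_inv_sqrt _
    · apply hae
      intro r hr
      have hσ : 0 < -r / 2 := by linarith [hr.2]
      have h1 : Continuous (D e (-r / 2) (D e (-r / 2) (F r))) :=
        continuous_D hG e he hσ (aesm_D e _ (hFr r).aestronglyMeasurable)
          (fun y => abs_D_le_lip e he hσ (hFr r) hKΛ (hFb r) (hFl r hr.1.le) y)
      exact h1.comp (by fun_prop)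
  -- the free part
  have hgc : AEStronglyMeasurable (w (-1)) volume :=
    (hE.continuous_space (-1)).aestronglyMeasurable
  have hJ1 : ∀ z, HasDerivAt (fun z : ℝ => P 1 (w (-1)) (0 + z • e))
      (D e 1 (w (-1)) (0 + z • e)) z := fun z =>
    hasDerivAt_P e one_pos hgc (hw1 (-1)) 0 z
  have hJ2 : ∀ z, HasDerivAt (fun z : ℝ => D e 1 (w (-1)) (0 + z • e))
      (D e (1 / 2) (D e (1 / 2) (w (-1))) (0 + z • e)) z := fun z =>
    hasDerivAt_D hG e he one_pos hgc (hw1 (-1)) 0 z
  have hJ3 : Continuous (fun z : ℝ => D e (1 / 2) (D e (1 / 2) (w (-1))) (0 + z • e)) := by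
    have hσ : (0 : ℝ) < 1 / 2 := by norm_num
    have h1 : Continuous (D e (1 / 2) (D e (1 / 2) (w (-1)))) :=
      continuous_D hG e he hσ (aesm_D e _ hgc) (hAb e he (1 / 2) hσ _ 1 hgc (hw1 (-1)))
    exact h1.comp (by fun_prop)
  -- Duhamel
  have hduh : (fun z : ℝ => w 0 (z • e)) = fun z : ℝ =>
      P 1 (w (-1)) (0 + z • e) + ∫ r in (-1 : ℝ)..0, G0 z r := by
    ext z
    have h1 := (hE.1 (-1)).duh (-1) 0 le_rfl (by norm_num) (z • e)
    rw [h1]
    simp only [hG0, zero_add, zero_sub, neg_neg, hF]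
  rw [hduh]
  have hP1 : ∀ z, HasDerivAt (fun z : ℝ => P 1 (w (-1)) (0 + z • e) + ∫ r in (-1 : ℝ)..0, G0 z r)
      (D e 1 (w (-1)) (0 + z • e) + ∫ r in (-1 : ℝ)..0, G1 z r) z := fun z =>
    (hJ1 z).add (hI1 z)
  have hP2 : ∀ z, HasDerivAt (fun z : ℝ => D e 1 (w (-1)) (0 + z • e) +
      ∫ r in (-1 : ℝ)..0, G1 z r)
      (D e (1 / 2) (D e (1 / 2) (w (-1))) (0 + z • e) + ∫ r in (-1 : ℝ)..0, G2 z r) z := fun z =>
    (hJ2 z).add (hI2 z)
  have hP3 := hJ3.add hI3
  have e1 : deriv (fun z : ℝ => P 1 (w (-1)) (0 + z • e) + ∫ r in (-1 : ℝ)..0, G0 z r) =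
      fun z : ℝ => D e 1 (w (-1)) (0 + z • e) + ∫ r in (-1 : ℝ)..0, G1 z r :=
    funext fun z => (hP1 z).deriv
  have e2 : deriv (fun z : ℝ => D e 1 (w (-1)) (0 + z • e) + ∫ r in (-1 : ℝ)..0, G1 z r) =
      fun z : ℝ => D e (1 / 2) (D e (1 / 2) (w (-1))) (0 + z • e) +
        ∫ r in (-1 : ℝ)..0, G2 z r := funext fun z => (hP2 z).deriv
  rw [show (2 : WithTop ℕ∞) = 1 + 1 by norm_num, contDiff_succ_iff_deriv]
  refine ⟨fun z => (hP1 z).differentiableAt, by simp, ?_⟩
  rw [e1, contDiff_one_iff_deriv]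
  refine ⟨fun z => (hP2 z).differentiableAt, ?_⟩
  rw [e2]
  exact hP3

end Pool.Agent.H70.RD.C2
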