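import Pool.Agent.H91.RD.Basic

/-!
# MP_609556_an: auxiliary lemmas for the bridge modules (heat kernel, joint continuity)
-/

open MeasureTheory Set Filter Topology Metric
open Pool.Agent.H29.TF
open Pool.Agent.H91.RD

namespace Pool.Agent.H70.RD

variable {N : ℕ}

/-- joint continuity of the heat kernel -/
theorem contOn_hk : ContinuousOn (fun p : ℝ × E N => hk p.1 p.2) (Ioi 0 ×ˢ univ) := by
  unfold hk
  apply ContinuousOn.mul
  · apply ContinuousOn.rpow_const
    · fun_prop
    · rintro ⟨t, x⟩ ⟨ht, -⟩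
      left
      have h0 : (0 : ℝ) < t := ht
      have hpi := Real.pi_pos
      positivity
  · apply Real.continuous_exp.comp_continuousOn
    apply ContinuousOn.div (by fun_prop) (by fun_prop)
    rintro ⟨t, x⟩ ⟨ht, -⟩
    have h0 : (0 : ℝ) < t := ht
    have : (0 : ℝ) < 4 * t := by linarith
    exact this.ne'

/-- continuity of the Laplacian of a solution -/
theorem contOn_lap {f : ℝ → ℝ} {U : Set (E N)} {u : ℝ → E N → ℝ} (h : IsSol f U u) :
    ContinuousOn (fun p : ℝ × E N => Laplacian.laplacian (u p.1) p.2) (Ioi 0 ×ˢ univ) := by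
  have e : (fun p : ℝ × E N => Laplacian.laplacian (u p.1) p.2) = fun p : ℝ × E N =>
      ∑ i, iteratedFDeriv ℝ 2 (u p.1) p.2
        ![(stdOrthonormalBasis ℝ (E N)) i, (stdOrthonormalBasis ℝ (E N)) i] := by
    ext p
    rw [InnerProductSpace.laplacian_eq_iteratedFDeriv_stdOrthonormalBasis]
  rw [e]
  apply continuousOn_finset_sum
  intro i _
  exact (ContinuousMultilinearMap.apply ℝ (fun _ : Fin 2 => E N) ℝ
    ![(stdOrthonormalBasis ℝ (E N)) i, (stdOrthonormalBasis ℝ (E N)) i]).continuous.comp_continuousOn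
    h.cont_dxx

/-- translated Laplacian -/
theorem lap_comp_sub (g : E N → ℝ) (a x : E N) :
    Laplacian.laplacian (fun z => g (z - a)) x = Laplacian.laplacian g (x - a) := by
  rw [InnerProductSpace.laplacian_eq_iteratedFDeriv_stdOrthonormalBasis,
    InnerProductSpace.laplacian_eq_iteratedFDeriv_stdOrthonormalBasis]
  apply Finset.sum_congr rfl
  intro i _
  rw [iteratedFDeriv_comp_sub]

/-- integrability on a strip of a function which is continuous on a compact box and vanishes off
it -/
theorem integrable_strip {s t : ℝ} {F : ℝ × E N → ℝ} {S : Set (E N)} (hS : IsCompact S)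
    (hF : ContinuousOn F (Icc s t ×ˢ univ)) (h0 : ∀ r ∈ Icc s t, ∀ y ∉ S, F (r, y) = 0) :
    Integrable F ((volume.restrict (Ioc s t)).prod (volume : Measure (E N))) := by
  have h1 : IntegrableOn F (Icc s t ×ˢ S) (volume : Measure (ℝ × E N)) :=
    (hF.mono (prod_mono_right (subset_univ _))).integrableOn_compact (isCompact_Icc.prod hS)
  have h2 : IntegrableOn F (Ioc s t ×ˢ univ) (volume : Measure (ℝ × E N)) := by
    have h3 : IntegrableOn F (Ioc s t ×ˢ S) (volume : Measure (ℝ × E N)) :=
      h1.mono_set (prod_mono_left Ioc_subset_Icc_self)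
    refine h3.of_forall_diff_eq_zero (measurableSet_Ioc.prod MeasurableSet.univ) ?_
    rintro ⟨r, y⟩ ⟨⟨hr, -⟩, hn⟩
    apply h0 r (Ioc_subset_Icc_self hr) y
    intro hy
    exact hn ⟨hr, hy⟩
  have h3 : (volume.restrict (Ioc s t)).prod (volume : Measure (E N)) =
      (volume : Measure (ℝ × E N)).restrict (Ioc s t ×ˢ univ) := by
    rw [Measure.volume_eq_prod, ← Measure.prod_restrict, Measure.restrict_univ]
  rw [h3]
  exact h2

/-- joint measurability on a strip -/
theorem aesm_strip {s t : ℝ} {F : ℝ × E N → ℝ}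
    (hF : ContinuousOn F (Ioo s t ×ˢ univ)) :
    AEStronglyMeasurable F ((volume.restrict (Ioo s t)).prod (volume : Measure (E N))) := by
  have h3 : (volume.restrict (Ioo s t)).prod (volume : Measure (E N)) =
      (volume : Measure (ℝ × E N)).restrict (Ioo s t ×ˢ univ) := by
    rw [Measure.volume_eq_prod, ← Measure.prod_restrict, Measure.restrict_univ]
  rw [h3]
  exact hF.aestronglyMeasurable (measurableSet_Ioo.prod MeasurableSet.univ)

end Pool.Agent.H70.RD
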