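import Mathlib
import Pool.Agent.H82.RD.Targets
import Pool.Agent.H82.RD.Basic

/-!
# RD: ZRT, the leading term for the zero ideal
-/

set_option autoImplicit false

open MvPolynomial Filter

namespace Pool.Agent.H70.RD

open Pool.Agent.H82.RD

theorem hf_bot_le (k : Type) [Field k] (u A B S : ℕ) :
    hf A B (⊥ : Ideal (PR k u)) S ≤ (Sx u (A * S)).card * (B * S + 1) := by
  classical
  have h1 : hf A B (⊥ : Ideal (PR k u)) S ≤ Module.finrank k (VV k u (A * S) (B * S)) :=
    Submodule.finrank_map_le _ _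
  rw [finrank_VV] at h1
  refine h1.trans ?_
  have h2 : (Sx u (A * S)).card * (B * S + 1) =
      (Sx u (A * S) ×ˢ Finset.range (B * S + 1)).card := by
    rw [Finset.card_product, Finset.card_range]
  rw [h2, ← Set.ncard_coe_finset]
  refine Set.ncard_le_ncard_of_injOn
    (fun m : Option (Fin u) →₀ ℕ => ((fun i => m (some i)), m none)) ?_ ?_
    (Finset.finite_toSet _)
  · intro m hm
    rw [Finset.mem_coe, Finset.mem_product, mem_Sx, Finset.mem_range]
    exact ⟨hm.1, Nat.lt_succ_of_le hm.2⟩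
  · intro m _ m' _ h
    ext o
    have h' := Prod.mk.inj h
    cases o with
    | none => exact h'.2
    | some i => exact congrFun h'.1 i

theorem fact_bound (hDCA : T_DCA) (k : Type) [Field k] (u A B S : ℕ) :
    (u + 1).factorial * hf A B (⊥ : Ideal (PR k u)) S ≤
      (u + 1) * (A * S + u) ^ u * (B * S + 1) := by
  have h1 := hf_bot_le k u A B S
  rw [hDCA u (A * S)] at h1
  have h2 : u.factorial * (A * S + u).choose u ≤ (A * S + u) ^ u := by
    rw [← Nat.descFactorial_eq_factorial_mul_choose]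
    exact Nat.descFactorial_le_pow _ _
  calc (u + 1).factorial * hf A B (⊥ : Ideal (PR k u)) S
      ≤ (u + 1).factorial * ((A * S + u).choose u * (B * S + 1)) :=
        Nat.mul_le_mul_left _ h1
    _ = (u + 1) * (u.factorial * (A * S + u).choose u) * (B * S + 1) := by
        rw [Nat.factorial_succ]; ring
    _ ≤ (u + 1) * (A * S + u) ^ u * (B * S + 1) :=
        Nat.mul_le_mul_right _ (Nat.mul_le_mul_left _ h2)

theorem pf_ZRT (hDCA : T_DCA) : T_ZRT := by
  intro k _ u A B N c hA hB h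
  have key : ∀ S : ℕ, N * S ^ (u + 1) ≤
      (u + 1) * (A * (S + c) + u) ^ u * (B * (S + c) + 1) := fun S =>
    (h S).trans (fact_bound hDCA k u A B (S + c))
  have hlim : Tendsto (fun S : ℕ => ((u : ℝ) + 1) * ((A : ℝ) + (A * c + u : ℝ) / (S : ℝ)) ^ u *
      ((B : ℝ) + (B * c + 1 : ℝ) / (S : ℝ))) atTop
      (nhds (((u : ℝ) + 1) * ((A : ℝ) + 0) ^ u * ((B : ℝ) + 0))) := by
    refine Tendsto.mul (Tendsto.mul tendsto_const_nhds (Tendsto.pow
      (Tendsto.add tendsto_const_nhds ?_) u)) (Tendsto.add tendsto_const_nhds ?_)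
    · exact tendsto_const_div_atTop_nhds_zero_nat _
    · exact tendsto_const_div_atTop_nhds_zero_nat _
  have hev : ∀ᶠ S : ℕ in atTop, (N : ℝ) ≤ ((u : ℝ) + 1) *
      ((A : ℝ) + (A * c + u : ℝ) / (S : ℝ)) ^ u * ((B : ℝ) + (B * c + 1 : ℝ) / (S : ℝ)) := by
    filter_upwards [eventually_ge_atTop 1] with S hS
    have hS0 : (0 : ℝ) < S := by exact_mod_cast hS
    have hk : (N : ℝ) * (S : ℝ) ^ (u + 1) ≤
        ((u : ℝ) + 1) * ((A : ℝ) * (S + c) + u) ^ u * ((B : ℝ) * (S + c) + 1) := by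
      exact_mod_cast key S
    have e1 : (A : ℝ) + (A * c + u : ℝ) / (S : ℝ) = ((A : ℝ) * (S + c) + u) / S := by
      field_simp
      ring
    have e2 : (B : ℝ) + (B * c + 1 : ℝ) / (S : ℝ) = ((B : ℝ) * (S + c) + 1) / S := by
      field_simp
      ring
    rw [e1, e2, div_pow]
    have e3 : ((u : ℝ) + 1) * (((A : ℝ) * (S + c) + u) ^ u / (S : ℝ) ^ u) *
        (((B : ℝ) * (S + c) + 1) / S) =
        (((u : ℝ) + 1) * ((A : ℝ) * (S + c) + u) ^ u * ((B : ℝ) * (S + c) + 1)) /
          (S : ℝ) ^ (u + 1) := by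
      rw [pow_succ]
      field_simp
    rw [e3, le_div_iff₀ (pow_pos hS0 _)]
    exact hk
  have hfin := ge_of_tendsto hlim hev
  simp only [add_zero] at hfin
  exact_mod_cast hfin

end Pool.Agent.H70.RD
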